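import Pool.Agent.Work.MP_f0515e_an.P2.QFinal

open Set Topology MeasureTheory
open scoped ENNReal

namespace Pool.Agent.Results.MP_f0515e_an.DimThree

/-- For `n = 3` and `1 ≤ p < 3`, every `W^{1,p}` homeomorphism of an arbitrary open set is
approximable by diffeomorphisms and by piecewise affine homeomorphisms. -/
theorem result (p : ℝ≥0∞) (hp1 : 1 ≤ p) (hp3 : p < 3) (Ω : Set (Fin 3 → ℝ))
    (hΩ : IsOpen Ω) (f : (Fin 3 → ℝ) → Fin 3 → ℝ)
    (D : (Fin 3 → ℝ) → (Fin 3 → ℝ) →L[ℝ] (Fin 3 → ℝ))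
    (hf : IsEmbedding (fun x : Ω => f x)) (hW : BEv.MemW1p p Ω f D) :
    BEv.Approximable BEv.IsDiffeo p Ω f D ∧ BEv.Approximable BEv.IsPAHomeo p Ω f D :=
  BEp.dim_three_all hp1 hp3 hΩ hf hW

end Pool.Agent.Results.MP_f0515e_an.DimThree
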