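import Pool.Agent.Work.MP_f0515e_an.Final
import Pool.Agent.Work.MP_f0515e_an.Ev.Final

open Set Metric Topology MeasureTheory
open scoped ENNReal

namespace Pool.Agent.Results.MP_f0515e_an.Endpoint

/-- For every `n ≥ 5` and `1 ≤ p ≤ [n/2]` there is a `W^{1,p}` homeomorphism of the open cube
`(-1,1)^n` (the unit ball of the sup norm) whose Jacobian changes sign and which is approximable
neither by diffeomorphisms nor by piecewise affine homeomorphisms. -/
theorem result (n : ℕ) (hn : 5 ≤ n) (p : ℝ≥0∞) (hp1 : 1 ≤ p)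
    (hp : p ≤ ((n / 2 : ℕ) : ℝ≥0∞)) :
    ∃ (f : (Fin n → ℝ) → Fin n → ℝ) (D : (Fin n → ℝ) → (Fin n → ℝ) →L[ℝ] (Fin n → ℝ)),
      IsEmbedding (fun x : ball (0 : Fin n → ℝ) 1 => f x) ∧
      BEv.MemW1p p (ball 0 1) f D ∧
      0 < volume {x ∈ ball (0 : Fin n → ℝ) 1 | 0 < (D x).det} ∧
      0 < volume {x ∈ ball (0 : Fin n → ℝ) 1 | (D x).det < 0} ∧
      ¬ BEv.Approximable BEv.IsDiffeo p (ball 0 1) f D ∧
      ¬ BEv.Approximable BEv.IsPAHomeo p (ball 0 1) f D := by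
  rcases Nat.even_or_odd' n with ⟨k, rfl | rfl⟩
  · obtain ⟨m, rfl⟩ : ∃ m, k = m + 1 := ⟨k - 1, by omega⟩
    have h : (2 * (m + 1)) / 2 = m + 1 := by omega
    rw [h] at hp
    exact BEe.main m (by omega) p hp1 hp
  · have h : (2 * k + 1) / 2 = k := by omega
    rw [h] at hp
    exact BEv.main k (by omega) p hp1 hp

end Pool.Agent.Results.MP_f0515e_an.Endpoint
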