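import Pool.Agent.Work.MP_f0515e_an.Pos.Main

open Set Metric Topology MeasureTheory
open scoped ENNReal

namespace Pool.Agent.Results.MP_f0515e_an.StarPositive

/-- For odd `n ≥ 5` and `[n/2] < p < [n/2] + 1`, every `W^{1,p}` homeomorphism of a bounded
strictly star-shaped domain is approximable by diffeomorphisms and by piecewise affine
homeomorphisms. -/
theorem result (n : ℕ) (hn : 5 ≤ n) (hodd : Odd n) (p : ℝ≥0∞)
    (hp1 : ((n / 2 : ℕ) : ℝ≥0∞) < p) (hp2 : p < ((n / 2 : ℕ) : ℝ≥0∞) + 1)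
    (Ω : Set (Fin n → ℝ)) (hΩ : IsOpen Ω) (hb : Bornology.IsBounded Ω) (c : Fin n → ℝ)
    (hc : ∀ x ∈ closure Ω, ∀ t ∈ Ico (0 : ℝ) 1, c + t • (x - c) ∈ Ω)
    (f : (Fin n → ℝ) → Fin n → ℝ) (D : (Fin n → ℝ) → (Fin n → ℝ) →L[ℝ] (Fin n → ℝ))
    (hf : IsEmbedding (fun x : Ω => f x)) (hW : BEv.MemW1p p Ω f D) :
    BEv.Approximable BEv.IsDiffeo p Ω f D ∧ BEv.Approximable BEv.IsPAHomeo p Ω f D := by
  obtain ⟨k, rfl⟩ := hodd
  have h : (2 * k + 1) / 2 = k := by omega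
  rw [h] at hp1 hp2
  exact BEp.main_pos (by omega) hp1 hp2 hΩ hb hc hf hW

end Pool.Agent.Results.MP_f0515e_an.StarPositive
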