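import Pool.Agent.Work.MP_f0515e_an.Pos.UMain

open Set Metric Topology MeasureTheory
open scoped ENNReal

namespace Pool.Agent.Results.MP_f0515e_an.UniformLimit

/-- For odd `n ≥ 5` and `[n/2] < p < [n/2] + 1`, on a bounded domain with continuous boundary and
arbitrary topology, a `W^{1,p}` homeomorphism which is isotopic to a locally uniform limit of
diffeomorphisms (of piecewise affine homeomorphisms) is a `W^{1,p}` limit of such maps. -/
theorem result (n : ℕ) (hn : 5 ≤ n) (hodd : Odd n) (p : ℝ≥0∞)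
    (hp1 : ((n / 2 : ℕ) : ℝ≥0∞) < p) (hp2 : p < ((n / 2 : ℕ) : ℝ≥0∞) + 1)
    (Ω : Set (Fin n → ℝ)) (hΩ : IsOpen Ω) (hb : Bornology.IsBounded Ω)
    (hs : BEp.Segm Ω ∨ BEp.Push Ω)
    (Kind : Set (Fin n → ℝ) → ((Fin n → ℝ) → Fin n → ℝ) → Prop)
    (hK : Kind = BEv.IsDiffeo ∨ Kind = BEv.IsPAHomeo)
    (f g : (Fin n → ℝ) → Fin n → ℝ) (D : (Fin n → ℝ) → (Fin n → ℝ) →L[ℝ] (Fin n → ℝ))
    (hf : IsEmbedding (fun x : Ω => f x)) (hW : BEv.MemW1p p Ω f D)
    (hg : BEp.Isotopic Ω f g) (hu : BEp.UnifLim Kind Ω g) :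
    BEv.Approximable Kind p Ω f D := by
  obtain ⟨k, rfl⟩ := hodd
  have h : (2 * k + 1) / 2 = k := by omega
  rw [h] at hp1 hp2
  have key := BEp.main_gen (by omega) hp1 hp2 hΩ hb hf hW (hs.elim (fun h => h.push hΩ hb) id) hg
  rcases hK with rfl | rfl
  · exact key.1 (Or.inr hu)
  · exact key.2 (Or.inr hu)

end Pool.Agent.Results.MP_f0515e_an.UniformLimit
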